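import Mathlib

/-!
# PNT/Ker: the Fejer kernel

Prime number theorem by Wiener-Ikehara (modules Ker, Fub, Lim, Tau, Zeta, Main).
`fk v = 2 (1 - cos v)/v² = ∫_{-1}^{1} (1 - |y|) cos (y v) dy`.
`0 ≤ 1 - cos v ≤ v²/2` (`Real.one_sub_sq_div_two_le_cos`) and `1 - cos v ≤ 2`. Integrable: compare with `1` on `[-1,1]` and
`4/v²` outside (or with `5/(1 + v²)`, `integrable_inv_one_add_sq`: `fk v ≤ min 1 (4/v²) ≤ 5/(1+v²)`).
`fk_fourier`: the imaginary part is odd; `∫_0^l (1 - y/l) cos (y u) dy = (1 - cos (l u))/(l u²)` (primitive: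
`(1 - y/l) sin (y u)/u - cos (y u)/(l u²)`), `u = 0` separately. Or split into `[-l,0]` and `[0,l]` and use the primitive
of `(1 ∓ y/l) exp (I y u)` directly.
-/

set_option autoImplicit false

open MeasureTheory Filter Topology

namespace Pool.Agent.PNT

/-- The Fejer kernel. -/
noncomputable def fk (v : ℝ) : ℝ := if v = 0 then 1 else 2 * (1 - Real.cos v) / v ^ 2

theorem fk_nonneg (v : ℝ) : 0 ≤ fk v := by
  unfold fk
  split_ifs with h
  · exact zero_le_one
  · have := Real.cos_le_one v
    apply div_nonneg _ (sq_nonneg v)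
    linarith

theorem fk_le (v : ℝ) : fk v ≤ 5 / (1 + v ^ 2) := by
  unfold fk
  split_ifs with h
  · rw [h]
    norm_num
  · have hv : 0 < v ^ 2 := by positivity
    rw [div_le_div_iff₀ hv (by positivity)]
    have h1 : 2 * (1 - Real.cos v) ≤ v ^ 2 := by
      have := Real.one_sub_sq_div_two_le_cos (x := v)
      linarith
    have h2 : 2 * (1 - Real.cos v) ≤ 4 := by
      have := Real.neg_one_le_cos v
      linarith
    nlinarith

theorem fk_meas : Measurable fk := by
  unfold fk
  apply Measurable.ite (measurableSet_singleton 0) measurable_const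
  exact (((measurable_const.sub Real.measurable_cos).const_mul 2)).div (measurable_id.pow_const 2)

theorem fk_int : Integrable fk := by
  have h : Integrable (fun v : ℝ => 5 * (1 + v ^ 2)⁻¹) := integrable_inv_one_add_sq.const_mul 5
  apply h.mono' fk_meas.aestronglyMeasurable
  refine Filter.Eventually.of_forall fun v => ?_
  rw [Real.norm_of_nonneg (fk_nonneg v)]
  have := fk_le v
  rwa [div_eq_mul_inv] at this

theorem fk_pos : 0 < ∫ v : ℝ, fk v := by
  rw [integral_pos_iff_support_of_nonneg (fun v => fk_nonneg v) fk_int]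
  have hsub : Set.Ioo (0 : ℝ) 1 ⊆ Function.support fk := by
    intro v hv
    have hv0 : v ≠ 0 := ne_of_gt hv.1
    have hcos : Real.cos v < 1 := by
      have h := Real.cos_lt_cos_of_nonneg_of_le_pi_div_two (x := 0) (y := v) le_rfl
        (by have := Real.pi_gt_three; linarith [hv.2]) hv.1
      rwa [Real.cos_zero] at h
    rw [Function.mem_support]
    unfold fk
    rw [if_neg hv0]
    apply ne_of_gt
    apply div_pos _ (by positivity)
    linarith
  refine lt_of_lt_of_le ?_ (measure_mono hsub)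
  rw [Real.volume_Ioo]
  norm_num

private theorem hasDerivAt_exp_I (u y : ℝ) :
    HasDerivAt (fun y : ℝ => Complex.exp (Complex.I * (y * u)))
      (Complex.exp (Complex.I * (y * u)) * (Complex.I * u)) y := by
  have h0 : HasDerivAt (fun y : ℝ => (y : ℂ)) 1 y := Complex.ofRealCLM.hasDerivAt
  have h := ((h0.mul_const (u : ℂ)).const_mul Complex.I).cexp
  rw [one_mul] at h
  exact h

private theorem hasDerivAt_lin (l s y : ℝ) :
    HasDerivAt (fun y : ℝ => 1 - (s : ℂ) * (y : ℂ) / l) (-((s : ℂ) / l)) y := by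
  have h0 : HasDerivAt (fun y : ℝ => (y : ℂ)) 1 y := Complex.ofRealCLM.hasDerivAt
  have h := ((h0.const_mul (s : ℂ)).div_const (l : ℂ)).const_sub 1
  rw [mul_one] at h
  exact h

private theorem int_side {l : ℝ} (hl : 0 < l) (s u a b : ℝ) (hu : u ≠ 0) :
    ∫ y in a..b, (1 - (s : ℂ) * (y : ℂ) / l) * Complex.exp (Complex.I * (y * u))
      = ((1 - (s : ℂ) * (b : ℂ) / l) * Complex.exp (Complex.I * (b * u)) / (Complex.I * u)
          + s * Complex.exp (Complex.I * (b * u)) / (l * (Complex.I * u) ^ 2))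
        - ((1 - (s : ℂ) * (a : ℂ) / l) * Complex.exp (Complex.I * (a * u)) / (Complex.I * u)
          + s * Complex.exp (Complex.I * (a * u)) / (l * (Complex.I * u) ^ 2)) := by
  have hlC : (l : ℂ) ≠ 0 := by exact_mod_cast hl.ne'
  have huC : (u : ℂ) ≠ 0 := by exact_mod_cast hu
  have hI : Complex.I ≠ 0 := Complex.I_ne_zero
  refine intervalIntegral.integral_eq_sub_of_hasDerivAt
    (f := fun y : ℝ => (1 - (s : ℂ) * (y : ℂ) / l) * Complex.exp (Complex.I * (y * u))
      / (Complex.I * u) + s * Complex.exp (Complex.I * (y * u)) / (l * (Complex.I * u) ^ 2))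
    (fun y _ => ?_) ?_
  · have h1 := ((hasDerivAt_lin l s y).mul (hasDerivAt_exp_I u y)).div_const (Complex.I * u)
    have h2 := ((hasDerivAt_exp_I u y).const_mul (s : ℂ)).div_const ((l : ℂ) * (Complex.I * u) ^ 2)
    refine (h1.add h2).congr_deriv ?_
    field_simp
    ring
  · apply Continuous.intervalIntegrable
    fun_prop

theorem fk_fourier {l : ℝ} (hl : 0 < l) (u : ℝ) :
    ∫ y in (-l)..l, ((1 - |y| / l : ℝ) : ℂ) * Complex.exp (Complex.I * (y * u))
      = ((l * fk (l * u) : ℝ) : ℂ) := by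
  have hlC : (l : ℂ) ≠ 0 := by exact_mod_cast hl.ne'
  have hcont : Continuous fun y : ℝ =>
      ((1 - |y| / l : ℝ) : ℂ) * Complex.exp (Complex.I * (y * u)) := by
    fun_prop
  rw [← intervalIntegral.integral_add_adjacent_intervals (b := 0)
    (hcont.intervalIntegrable _ _) (hcont.intervalIntegrable _ _)]
  have hL : ∫ y in (-l)..0, ((1 - |y| / l : ℝ) : ℂ) * Complex.exp (Complex.I * (y * u))
      = ∫ y in (-l)..0, (1 - ((-1 : ℝ) : ℂ) * (y : ℂ) / l) * Complex.exp (Complex.I * (y * u)) := by
    apply intervalIntegral.integral_congr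
    intro y hy
    rw [Set.uIcc_of_le (by linarith)] at hy
    simp only [abs_of_nonpos hy.2]
    push_cast
    ring
  have hR : ∫ y in (0 : ℝ)..l, ((1 - |y| / l : ℝ) : ℂ) * Complex.exp (Complex.I * (y * u))
      = ∫ y in (0 : ℝ)..l, (1 - ((1 : ℝ) : ℂ) * (y : ℂ) / l) * Complex.exp (Complex.I * (y * u)) := by
    apply intervalIntegral.integral_congr
    intro y hy
    rw [Set.uIcc_of_le hl.le] at hy
    simp only [abs_of_nonneg hy.1]
    push_cast
    ring
  rw [hL, hR]
  by_cases hu : u = 0
  · subst hu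
    have hside : ∀ s a b : ℝ,
        ∫ y in a..b, (1 - (s : ℂ) * (y : ℂ) / l) * Complex.exp (Complex.I * (y * ((0 : ℝ) : ℂ)))
          = (b - s * b ^ 2 / (2 * l)) - (a - s * a ^ 2 / (2 * l)) := by
      intro s a b
      refine intervalIntegral.integral_eq_sub_of_hasDerivAt
        (f := fun y : ℝ => (y : ℂ) - s * (y : ℂ) ^ 2 / (2 * l)) (fun y _ => ?_) ?_
      · have h0 : HasDerivAt (fun y : ℝ => (y : ℂ)) 1 y := Complex.ofRealCLM.hasDerivAt
        have h1 := h0.sub (((h0.pow 2).const_mul (s : ℂ)).div_const ((2 : ℂ) * l))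
        refine h1.congr_deriv ?_
        simp only [Complex.ofReal_zero, mul_zero, Complex.exp_zero]
        field_simp
        ring
      · apply Continuous.intervalIntegrable
        fun_prop
    rw [hside, hside]
    have hf : fk (l * 0) = 1 := by
      unfold fk
      rw [mul_zero, if_pos rfl]
    rw [hf]
    push_cast
    field_simp
    ring
  · have huC : (u : ℂ) ≠ 0 := by exact_mod_cast hu
    have hI : Complex.I ≠ 0 := Complex.I_ne_zero
    rw [int_side hl _ _ _ _ hu, int_side hl _ _ _ _ hu]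
    have hf : fk (l * u) = 2 * (1 - Real.cos (l * u)) / (l * u) ^ 2 := by
      unfold fk
      rw [if_neg (mul_ne_zero hl.ne' hu)]
    rw [hf]
    have hcos : ((Real.cos (l * u) : ℝ) : ℂ)
        = (Complex.exp (Complex.I * (l * u)) + Complex.exp (Complex.I * ((-l : ℝ) * u))) / 2 := by
      rw [Complex.ofReal_cos, Complex.cos]
      push_cast
      rw [show (l : ℂ) * u * Complex.I = Complex.I * (l * u) by ring,
        show -((l : ℂ) * u) * Complex.I = Complex.I * (-l * u) by ring]
    have hI2 : Complex.I ^ 2 = -1 := Complex.I_sq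
    rw [Complex.ofReal_mul, Complex.ofReal_div, Complex.ofReal_mul, Complex.ofReal_sub, hcos]
    push_cast
    simp only [zero_mul, mul_zero, Complex.exp_zero]
    generalize Complex.exp (Complex.I * (l * u)) = E1
    generalize Complex.exp (Complex.I * (-l * u)) = E2
    rw [mul_pow Complex.I, hI2]
    field_simp
    ring

end Pool.Agent.PNT
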