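import Pool.Agent.PNT.Ker

/-!
# PNT/Tau: the Tauberian argument

Let `c = ∫ fk > 0`, `c_r = ∫_{-r}^{r} fk → c` as `r → ∞`. For fixed `l`: `∫_0^∞ l fk (l (x - t)) dt = ∫_{-∞}^{l x} fk → c`, so
`∫_0^∞ S t l fk (l (x - t)) dt → c` as `x → ∞`. Let `d > 0`.
Upper bound: for `t ∈ [x - d, x + d]`, `S t ≥ S (x - d) exp (-(2 d))` (`hmono`, `x - d ≥ 0`), so
`S (x - d) exp (-2d) c_{l d} ≤ ∫_0^∞ S t l fk (l (x-t)) dt`; hence `limsup S ≤ exp (2d) c/c_{l d}`, let `l → ∞`, `d → 0`.
Lower bound: for `t ∈ [x - d, x + d]`, `S t ≤ S (x + d) exp (2 d)`, so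
`∫_0^∞ S t l fk (l (x-t)) dt ≤ S (x + d) exp (2d) c + M (c - c_{l d})`.
Given `ε`, choose `d` with `exp (2d)` close to `1`, then `l` with `c_{l d}` close to `c`, then `x` large.
-/

set_option autoImplicit false

open MeasureTheory Filter Topology

namespace Pool.Agent.PNT

theorem fk_tail : Tendsto (fun r : ℝ => ∫ v in (-r)..r, fk v) atTop (𝓝 (∫ v : ℝ, fk v)) :=
  intervalIntegral_tendsto_integral fk_int tendsto_neg_atTop_atBot tendsto_id

private theorem K_int {l : ℝ} (hl : 0 < l) : Integrable (fun v : ℝ => l * fk (l * v)) :=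
  (fk_int.comp_mul_left' hl.ne').const_mul l

private theorem K_integral {l : ℝ} (hl : 0 < l) : ∫ v : ℝ, l * fk (l * v) = ∫ v : ℝ, fk v := by
  rw [integral_const_mul, Measure.integral_comp_mul_left, abs_of_pos (inv_pos.2 hl), smul_eq_mul,
    ← mul_assoc, mul_inv_cancel₀ hl.ne', one_mul]

private theorem Ks_int {l : ℝ} (hl : 0 < l) (x : ℝ) :
    Integrable (fun t : ℝ => l * fk (l * (x - t))) :=
  (K_int hl).comp_sub_left x

private theorem Ks_integral {l : ℝ} (hl : 0 < l) (x : ℝ) :
    ∫ t : ℝ, l * fk (l * (x - t)) = ∫ v : ℝ, fk v := by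
  rw [← K_integral hl]
  exact integral_sub_left_eq_self (fun v : ℝ => l * fk (l * v)) volume x

private theorem Ks_win (l x d : ℝ) :
    ∫ t in (x - d)..(x + d), l * fk (l * (x - t)) = ∫ v in (-(l * d))..(l * d), fk v := by
  rw [intervalIntegral.integral_comp_sub_left (fun v : ℝ => l * fk (l * v)) x,
    intervalIntegral.integral_const_mul, intervalIntegral.mul_integral_comp_mul_left]
  congr 1 <;> ring

private theorem Ks_half {l : ℝ} (hl : 0 < l) :
    Tendsto (fun x : ℝ => ∫ t in Set.Ioi (0 : ℝ), l * fk (l * (x - t))) atTop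
      (𝓝 (∫ v : ℝ, fk v)) := by
  have h1 : ∀ x : ℝ, ∫ t in Set.Ioi (0 : ℝ), l * fk (l * (x - t)) =
      ∫ v in Set.Iio x, l * fk (l * v) := by
    intro x
    rw [← integral_indicator measurableSet_Ioi, ← integral_indicator measurableSet_Iio,
      ← integral_sub_left_eq_self (Set.indicator (Set.Iio x) (fun v : ℝ => l * fk (l * v))) volume x]
    congr 1
    funext t
    by_cases ht : 0 < t
    · rw [Set.indicator_of_mem (show t ∈ Set.Ioi (0 : ℝ) from ht),
        Set.indicator_of_mem (show x - t ∈ Set.Iio x by simp [ht])]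
    · rw [Set.indicator_of_notMem (show t ∉ Set.Ioi (0 : ℝ) from ht),
        Set.indicator_of_notMem (show x - t ∉ Set.Iio x by simpa using ht)]
  simp only [h1]
  rw [← K_integral hl]
  exact (aecover_Iio tendsto_id).integral_tendsto_of_countably_generated (K_int hl)

private theorem SK_int {S : ℝ → ℝ} {M : ℝ} (hS : Measurable S) (h0 : ∀ t, 0 ≤ S t)
    (hM : ∀ t, S t ≤ M) {l : ℝ} (hl : 0 < l) (x : ℝ) :
    Integrable (fun t : ℝ => S t * (l * fk (l * (x - t)))) := by
  refine (Ks_int hl x).bdd_mul (c := M) hS.aestronglyMeasurable (Eventually.of_forall fun t => ?_)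
  rw [Real.norm_eq_abs, abs_of_nonneg (h0 t)]
  exact hM t

private theorem G_lim {S : ℝ → ℝ} {M : ℝ} (hS : Measurable S) (h0 : ∀ t, 0 ≤ S t)
    (hM : ∀ t, S t ≤ M)
    (hlim : ∀ l : ℝ, 0 < l →
      Tendsto (fun x : ℝ => ∫ t in Set.Ioi (0 : ℝ), (S t - 1) * (l * fk (l * (x - t))))
        atTop (𝓝 0)) {l : ℝ} (hl : 0 < l) :
    Tendsto (fun x : ℝ => ∫ t in Set.Ioi (0 : ℝ), S t * (l * fk (l * (x - t))))
        atTop (𝓝 (∫ v : ℝ, fk v)) := by
  have h := (hlim l hl).add (Ks_half hl)
  rw [zero_add] at h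
  refine h.congr fun x => ?_
  rw [← integral_add]
  · congr 1
    funext t
    ring
  · have e : (fun t : ℝ => (S t - 1) * (l * fk (l * (x - t)))) =
        fun t => S t * (l * fk (l * (x - t))) - l * fk (l * (x - t)) := by
      funext t
      ring
    rw [e]
    exact ((SK_int hS h0 hM hl x).sub (Ks_int hl x)).integrableOn
  · exact (Ks_int hl x).integrableOn

private theorem K_nonneg {l : ℝ} (hl : 0 < l) (v : ℝ) : 0 ≤ l * fk v :=
  mul_nonneg hl.le (fk_nonneg _)

private theorem up_bound {S : ℝ → ℝ} {M : ℝ} (hS : Measurable S) (h0 : ∀ t, 0 ≤ S t)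
    (hM : ∀ t, S t ≤ M)
    (hmono : ∀ t u, 0 ≤ t → t ≤ u → S t * Real.exp t ≤ S u * Real.exp u)
    {l d x : ℝ} (hl : 0 < l) (hd : 0 < d) (hx : d ≤ x) :
    S (x - d) * Real.exp (-(2 * d)) * (∫ v in (-(l * d))..(l * d), fk v) ≤
      ∫ t in Set.Ioi (0 : ℝ), S t * (l * fk (l * (x - t))) := by
  rw [← Ks_win l x d, intervalIntegral.integral_of_le (by linarith), ← integral_const_mul]
  have h1 : ∫ t in Set.Ioc (x - d) (x + d), S (x - d) * Real.exp (-(2 * d)) * (l * fk (l * (x - t))) ≤
      ∫ t in Set.Ioc (x - d) (x + d), S t * (l * fk (l * (x - t))) := by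
    refine setIntegral_mono_on ((Ks_int hl x).const_mul _).integrableOn
      (SK_int hS h0 hM hl x).integrableOn measurableSet_Ioc fun t ht => ?_
    refine mul_le_mul_of_nonneg_right ?_ (K_nonneg hl _)
    have h2 := hmono (x - d) t (by linarith) ht.1.le
    have h3 : S (x - d) * Real.exp (x - d - t) ≤ S t := by
      rw [sub_eq_add_neg (x - d) t, Real.exp_add, ← mul_assoc]
      calc S (x - d) * Real.exp (x - d) * Real.exp (-t) ≤ S t * Real.exp t * Real.exp (-t) := by
            gcongr
        _ = S t := by rw [mul_assoc, ← Real.exp_add]; simp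
    refine le_trans ?_ h3
    have := ht.2
    exact mul_le_mul_of_nonneg_left (Real.exp_le_exp.2 (by linarith)) (h0 _)
  refine h1.trans ?_
  exact setIntegral_mono_set (SK_int hS h0 hM hl x).integrableOn
    (Eventually.of_forall fun t => mul_nonneg (h0 t) (K_nonneg hl _))
    (HasSubset.Subset.eventuallyLE fun t ht => lt_of_le_of_lt (by linarith : (0 : ℝ) ≤ x - d) ht.1)

private theorem lo_bound {S : ℝ → ℝ} {M : ℝ} (hS : Measurable S) (h0 : ∀ t, 0 ≤ S t)
    (hM : ∀ t, S t ≤ M)
    (hmono : ∀ t u, 0 ≤ t → t ≤ u → S t * Real.exp t ≤ S u * Real.exp u)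
    {l d x : ℝ} (hl : 0 < l) (hd : 0 < d) (hx : d ≤ x) :
    ∫ t in Set.Ioi (0 : ℝ), S t * (l * fk (l * (x - t))) ≤
      S (x + d) * Real.exp (2 * d) * (∫ v : ℝ, fk v) +
        M * ((∫ v : ℝ, fk v) - ∫ v in (-(l * d))..(l * d), fk v) := by
  have hM0 : 0 ≤ M := (h0 0).trans (hM 0)
  set W := Set.Ioc (x - d) (x + d) with hW
  have hsub : W ⊆ Set.Ioi (0 : ℝ) := fun t ht => lt_of_le_of_lt (by linarith : (0 : ℝ) ≤ x - d) ht.1
  have hi := SK_int hS h0 hM hl x
  have hk := Ks_int hl x
  have e1 : ∫ t in Set.Ioi (0 : ℝ), S t * (l * fk (l * (x - t))) =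
      (∫ t in W, S t * (l * fk (l * (x - t)))) +
        ∫ t in Set.Ioi (0 : ℝ) \ W, S t * (l * fk (l * (x - t))) := by
    rw [← setIntegral_union Set.disjoint_sdiff_right (measurableSet_Ioi.diff measurableSet_Ioc)
      hi.integrableOn hi.integrableOn, Set.union_diff_cancel hsub]
  have h1 : ∫ t in W, S t * (l * fk (l * (x - t))) ≤
      ∫ t in W, S (x + d) * Real.exp (2 * d) * (l * fk (l * (x - t))) := by
    refine setIntegral_mono_on hi.integrableOn (hk.const_mul _).integrableOn measurableSet_Ioc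
      fun t ht => ?_
    refine mul_le_mul_of_nonneg_right ?_ (K_nonneg hl _)
    have h2 := hmono t (x + d) (hsub ht).le ht.2
    have h3 : S t ≤ S (x + d) * Real.exp (x + d - t) := by
      rw [sub_eq_add_neg (x + d) t, Real.exp_add, ← mul_assoc]
      calc S t = S t * Real.exp t * Real.exp (-t) := by rw [mul_assoc, ← Real.exp_add]; simp
        _ ≤ S (x + d) * Real.exp (x + d) * Real.exp (-t) := by gcongr
    refine h3.trans ?_
    have := ht.1
    exact mul_le_mul_of_nonneg_left (Real.exp_le_exp.2 (by linarith)) (h0 _)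
  rw [integral_const_mul] at h1
  have h2 : ∫ t in W, l * fk (l * (x - t)) = ∫ v in (-(l * d))..(l * d), fk v := by
    rw [← Ks_win l x d, intervalIntegral.integral_of_le (by linarith)]
  have h3 : ∫ t in W, l * fk (l * (x - t)) ≤ ∫ v : ℝ, fk v := by
    rw [← Ks_integral hl x]
    exact setIntegral_le_integral hk (Eventually.of_forall fun t => K_nonneg hl _)
  have h4 : ∫ t in Set.Ioi (0 : ℝ) \ W, S t * (l * fk (l * (x - t))) ≤
      M * ∫ t in Set.Ioi (0 : ℝ) \ W, l * fk (l * (x - t)) := by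
    rw [← integral_const_mul]
    refine setIntegral_mono_on hi.integrableOn (hk.const_mul _).integrableOn
      (measurableSet_Ioi.diff measurableSet_Ioc) fun t _ => ?_
    exact mul_le_mul_of_nonneg_right (hM t) (K_nonneg hl _)
  have h5 : ∫ t in Set.Ioi (0 : ℝ) \ W, l * fk (l * (x - t)) ≤
      (∫ v : ℝ, fk v) - ∫ v in (-(l * d))..(l * d), fk v := by
    have h6 : (∫ t in W, l * fk (l * (x - t))) + ∫ t in Set.Ioi (0 : ℝ) \ W, l * fk (l * (x - t)) ≤
        ∫ v : ℝ, fk v := by
      rw [← setIntegral_union Set.disjoint_sdiff_right (measurableSet_Ioi.diff measurableSet_Ioc)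
        hk.integrableOn hk.integrableOn, Set.union_diff_cancel hsub, ← Ks_integral hl x]
      exact setIntegral_le_integral hk (Eventually.of_forall fun t => K_nonneg hl _)
    rw [h2] at h6
    linarith
  have h7 : 0 ≤ S (x + d) * Real.exp (2 * d) := mul_nonneg (h0 _) (Real.exp_pos _).le
  rw [e1]
  have h8 := mul_le_mul_of_nonneg_left h3 h7
  have h9 := mul_le_mul_of_nonneg_left h5 hM0
  linarith

theorem tauber {S : ℝ → ℝ} {M : ℝ} (hS : Measurable S) (h0 : ∀ t, 0 ≤ S t) (hM : ∀ t, S t ≤ M)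
    (hmono : ∀ t u, 0 ≤ t → t ≤ u → S t * Real.exp t ≤ S u * Real.exp u)
    (hlim : ∀ l : ℝ, 0 < l →
      Tendsto (fun x : ℝ => ∫ t in Set.Ioi (0 : ℝ), (S t - 1) * (l * fk (l * (x - t))))
        atTop (𝓝 0)) :
    Tendsto S atTop (𝓝 1) := by
  have hc := fk_pos
  set c := ∫ v : ℝ, fk v with hcdef
  have hexp : ∀ b : ℝ, 1 < b → ∃ d : ℝ, 0 < d ∧ Real.exp (2 * d) < b := by
    intro b hb
    refine ⟨Real.log b / 4, div_pos (Real.log_pos hb) (by norm_num), ?_⟩
    have h1 := Real.log_pos hb
    calc Real.exp (2 * (Real.log b / 4)) < Real.exp (Real.log b) :=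
          Real.exp_lt_exp.2 (by linarith)
      _ = b := Real.exp_log (by linarith)
  have hcl : ∀ d : ℝ, 0 < d → Tendsto (fun l : ℝ => ∫ v in (-(l * d))..(l * d), fk v) atTop (𝓝 c) := by
    intro d hd
    exact fk_tail.comp (tendsto_id.atTop_mul_const hd)
  rw [tendsto_order]
  constructor
  · -- lower bound
    intro a ha
    rcases le_or_gt a 0 with ha0 | ha0
    · rcases ha0.lt_or_eq with h | h
      · exact Eventually.of_forall fun t => lt_of_lt_of_le h (h0 t)
      · -- `a = 0`: use `1/2`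
        obtain ⟨d, hd, hd2⟩ := hexp 2 (by norm_num)
        have h1 : Tendsto (fun l : ℝ => M * (c - ∫ v in (-(l * d))..(l * d), fk v)) atTop
            (𝓝 (M * (c - c))) := ((hcl d hd).const_sub c).const_mul M
        rw [sub_self, mul_zero] at h1
        obtain ⟨l, hl1, hl2⟩ := ((h1.eventually (gt_mem_nhds (show (0 : ℝ) < c / 2 by linarith))).and
          (eventually_gt_atTop 0)).exists
        have h2 := (G_lim hS h0 hM hlim hl2).eventually (lt_mem_nhds (show c / 2 < c by linarith))
        have h3 : ∀ᶠ x in atTop, 0 < S (x + d) := by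
          filter_upwards [h2, eventually_ge_atTop d] with x hx hx2
          have h4 := lo_bound hS h0 hM hmono hl2 hd hx2
          by_contra hneg
          have h5 : S (x + d) = 0 := le_antisymm (not_lt.1 hneg) (h0 _)
          rw [h5] at h4
          simp only [zero_mul, zero_add] at h4
          linarith
        rw [h]
        have h4 := (tendsto_atTop_add_const_right atTop (-d) tendsto_id).eventually h3
        filter_upwards [h4] with x hx
        simpa using hx
    · obtain ⟨d, hd, hd2⟩ := hexp (1 / a) (by rw [lt_div_iff₀ ha0]; linarith)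
      have hd3 : a * Real.exp (2 * d) < 1 := by
        rw [lt_div_iff₀ ha0] at hd2
        linarith
      have h1 : Tendsto (fun l : ℝ => M * (c - ∫ v in (-(l * d))..(l * d), fk v)) atTop
          (𝓝 (M * (c - c))) := ((hcl d hd).const_sub c).const_mul M
      rw [sub_self, mul_zero] at h1
      have hgap : 0 < c * (1 - a * Real.exp (2 * d)) / 2 := by
        have : 0 < 1 - a * Real.exp (2 * d) := by linarith
        positivity
      obtain ⟨l, hl1, hl2⟩ := ((h1.eventually (gt_mem_nhds hgap)).and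
        (eventually_gt_atTop 0)).exists
      have h2 := (G_lim hS h0 hM hlim hl2).eventually
        (lt_mem_nhds (show c - c * (1 - a * Real.exp (2 * d)) / 2 < c by linarith))
      have h3 : ∀ᶠ x in atTop, a < S (x + d) := by
        filter_upwards [h2, eventually_ge_atTop d] with x hx hx2
        have h4 := lo_bound hS h0 hM hmono hl2 hd hx2
        have h5 : a * Real.exp (2 * d) * c < S (x + d) * Real.exp (2 * d) * c := by
          have e : c - c * (1 - a * Real.exp (2 * d)) / 2 - c * (1 - a * Real.exp (2 * d)) / 2 =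
            a * Real.exp (2 * d) * c := by ring
          rw [← e]
          linarith
        have h6 := lt_of_mul_lt_mul_right h5 hc.le
        exact lt_of_mul_lt_mul_right h6 (Real.exp_pos _).le
      have h4 := (tendsto_atTop_add_const_right atTop (-d) tendsto_id).eventually h3
      filter_upwards [h4] with x hx
      simpa using hx
  · intro b hb
    obtain ⟨d, hd, hd2⟩ := hexp b hb
    have h1 : Tendsto (fun l : ℝ => b * Real.exp (-(2 * d)) * ∫ v in (-(l * d))..(l * d), fk v) atTop
        (𝓝 (b * Real.exp (-(2 * d)) * c)) := (hcl d hd).const_mul _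
    have hgap : c < b * Real.exp (-(2 * d)) * c := by
      have h2 : 1 < b * Real.exp (-(2 * d)) := by
        rw [Real.exp_neg, ← div_eq_mul_inv, lt_div_iff₀ (Real.exp_pos _)]
        linarith
      nlinarith
    obtain ⟨l, ⟨hl1, hl2⟩, hl3⟩ := (((h1.eventually (lt_mem_nhds hgap)).and
      (eventually_gt_atTop 0)).and ((hcl d hd).eventually (lt_mem_nhds hc))).exists
    have h2 := (G_lim hS h0 hM hlim hl2).eventually (gt_mem_nhds hl1)
    have h3 : ∀ᶠ x in atTop, S (x - d) < b := by
      filter_upwards [h2, eventually_ge_atTop d] with x hx hx2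
      have h4 := up_bound hS h0 hM hmono hl2 hd hx2
      have h5 := h4.trans_lt hx
      rw [mul_assoc, mul_assoc] at h5
      exact lt_of_mul_lt_mul_right h5 (mul_pos (Real.exp_pos _) hl3).le
    have h4 := (tendsto_atTop_add_const_right atTop d tendsto_id).eventually h3
    filter_upwards [h4] with x hx
    simpa using hx

end Pool.Agent.PNT
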