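import Mathlib

/-!
# PNT/Zeta: the Laplace transform of `exp (-t) psi (exp t) - 1`

For `Re s > 1`: `L(Λ, s) = s ∫_1^∞ psi u u^(-s-1) du` (`LSeries_eq_mul_integral_of_nonneg` with `r = 1`, `vonMangoldt_nonneg`,
`Chebyshev.psi_le_const_mul_self`, `Chebyshev.psi_eq_sum_Icc`). Substitute `u = exp t` (`integral_comp_...`/
`MeasureTheory.integral_image_eq_integral_abs_deriv_smul` or `integral_comp_mul_deriv_Ioi`) and `s = 1 + z`:
`∫_0^∞ exp (-t) psi (exp t) exp (-z t) dt = L(Λ, 1 + z)/(1 + z)`, and `∫_0^∞ exp (-z t) dt = 1/z`. So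
`F z = (L(Λ, 1+z) - 1/z)/(1+z) - 1/(1+z)`; `L(Λ, s) - 1/(s-1)` is `LFunctionResidueClassAux (1 : ZMod 1) s` for `Re s > 1`
(`ArithmeticFunction.vonMangoldt.eqOn_LFunctionResidueClassAux`, `Nat.totient 1 = 1`, `residueClass (1 : ZMod 1) = Λ`,
`Subsingleton (ZMod 1)`), continuous on `1 ≤ Re s` (`continuousOn_LFunctionResidueClassAux`).
-/

set_option autoImplicit false

open MeasureTheory Filter Topology

namespace Pool.Agent.PNT

open ArithmeticFunction ArithmeticFunction.vonMangoldt

private theorem vM_isBigO : (fun n : ℕ => ∑ k ∈ Finset.Icc 1 n, ArithmeticFunction.vonMangoldt k)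
    =O[atTop] fun n : ℕ => (n : ℝ) ^ (1 : ℝ) := by
  apply Asymptotics.IsBigO.of_bound (Real.log 4 + 4)
  filter_upwards with n
  have h1 : ∑ k ∈ Finset.Icc 1 n, ArithmeticFunction.vonMangoldt k = Chebyshev.psi n := by
    unfold Chebyshev.psi
    rw [Nat.floor_natCast]
    rfl
  rw [h1, Real.norm_of_nonneg (Chebyshev.psi_nonneg _), Real.rpow_one,
    Real.norm_of_nonneg (Nat.cast_nonneg n)]
  exact Chebyshev.psi_le_const_mul_self (Nat.cast_nonneg n)

private theorem image_exp : Real.exp '' Set.Ioi 0 = Set.Ioi 1 := by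
  ext x
  constructor
  · rintro ⟨t, ht, rfl⟩
    exact Real.one_lt_exp_iff.2 ht
  · intro hx
    have hx' : (1 : ℝ) < x := hx
    exact ⟨Real.log x, Real.log_pos hx', Real.exp_log (by linarith)⟩

private theorem subst_exp (g : ℝ → ℂ) : ∫ x in Set.Ioi (1 : ℝ), g x =
    ∫ t in Set.Ioi (0 : ℝ), (Real.exp t : ℝ) • g (Real.exp t) := by
  rw [← image_exp, integral_image_eq_integral_abs_deriv_smul measurableSet_Ioi
    (fun x _ => (Real.hasDerivAt_exp x).hasDerivWithinAt) Real.exp_injective.injOn]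
  simp only [abs_of_pos (Real.exp_pos _)]

private theorem measurable_psi : Measurable (fun t : ℝ => Chebyshev.psi (Real.exp t)) :=
  (Chebyshev.psi_mono.comp Real.exp_monotone).measurable

private theorem lap_one {z : ℂ} (hz : 0 < z.re) :
    ∫ t in Set.Ioi (0 : ℝ), Complex.exp (-z * t) = 1 / z := by
  rw [integral_exp_mul_complex_Ioi (by simpa using hz)]
  simp [neg_div_neg_eq]

private theorem int_one {z : ℂ} (hz : 0 < z.re) :
    IntegrableOn (fun t : ℝ => Complex.exp (-z * t)) (Set.Ioi (0 : ℝ)) :=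
  integrableOn_exp_mul_complex_Ioi (by simpa using hz) 0

private theorem int_psi {z : ℂ} (hz : 0 < z.re) :
    IntegrableOn (fun t : ℝ => ((Real.exp (-t) * Chebyshev.psi (Real.exp t) : ℝ) : ℂ) *
      Complex.exp (-z * t)) (Set.Ioi (0 : ℝ)) := by
  refine Integrable.bdd_mul (c := Real.log 4 + 4) (int_one hz) ?_ ?_
  · apply Measurable.aestronglyMeasurable
    exact Complex.measurable_ofReal.comp ((Real.measurable_exp.comp measurable_neg).mul
      measurable_psi)
  · filter_upwards with t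
    rw [Complex.norm_real, Real.norm_of_nonneg
      (mul_nonneg (Real.exp_pos _).le (Chebyshev.psi_nonneg _))]
    have h1 := Chebyshev.psi_le_const_mul_self (Real.exp_pos t).le
    calc Real.exp (-t) * Chebyshev.psi (Real.exp t)
        ≤ Real.exp (-t) * ((Real.log 4 + 4) * Real.exp t) :=
          mul_le_mul_of_nonneg_left h1 (Real.exp_pos _).le
      _ = (Real.log 4 + 4) * (Real.exp (-t) * Real.exp t) := by ring
      _ = Real.log 4 + 4 := by rw [← Real.exp_add]; simp

private theorem lser {z : ℂ} (hz : 0 < z.re) :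
    LSeries (fun n => (ArithmeticFunction.vonMangoldt n : ℂ)) (1 + z) =
      (1 + z) * ∫ t in Set.Ioi (0 : ℝ), ((Real.exp (-t) * Chebyshev.psi (Real.exp t) : ℝ) : ℂ) *
      Complex.exp (-z * t) := by
  rw [LSeries_eq_mul_integral_of_nonneg (fun n => ArithmeticFunction.vonMangoldt n)
    (r := 1) zero_le_one (s := 1 + z) (by simpa using hz) vM_isBigO
    (fun n => ArithmeticFunction.vonMangoldt_nonneg)]
  congr 1
  rw [subst_exp]
  apply setIntegral_congr_fun measurableSet_Ioi
  intro t _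
  have h1 : (∑ k ∈ Finset.Icc 1 ⌊Real.exp t⌋₊, (ArithmeticFunction.vonMangoldt k : ℂ)) =
      ((Chebyshev.psi (Real.exp t) : ℝ) : ℂ) := by
    unfold Chebyshev.psi
    push_cast
    rfl
  have h2 : ((Real.exp t : ℝ) : ℂ) ^ (-(1 + z + 1)) = Complex.exp (-(1 + z + 1) * t) := by
    rw [Complex.cpow_def_of_ne_zero (by exact_mod_cast (Real.exp_pos t).ne'), ← Complex.ofReal_log
      (Real.exp_pos t).le, Real.log_exp]
    congr 1
    ring
  simp only
  rw [h1, h2, Complex.real_smul]
  push_cast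
  have h3 : Complex.exp (-(1 + z + 1) * t) = Complex.exp (-(t : ℂ)) * Complex.exp (-(t : ℂ)) *
      Complex.exp (-z * t) := by
    rw [← Complex.exp_add, ← Complex.exp_add]
    congr 1
    ring
  have h4 : Complex.exp (t : ℂ) * Complex.exp (-(t : ℂ)) = 1 := by
    rw [← Complex.exp_add]
    simp
  rw [h3]
  linear_combination ((Chebyshev.psi (Real.exp t) : ℝ) : ℂ) * Complex.exp (-(t : ℂ)) *
      Complex.exp (-z * t) * h4

theorem zeta_int : ∃ F : ℂ → ℂ, ContinuousOn F {z | 0 ≤ z.re} ∧ ∀ z : ℂ, 0 < z.re →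
    F z = ∫ t in Set.Ioi (0 : ℝ), ((Real.exp (-t) * Chebyshev.psi (Real.exp t) - 1 : ℝ) : ℂ) *
      Complex.exp (-z * t) := by
  refine ⟨fun z => (LFunctionResidueClassAux (1 : ZMod 1) (1 + z) - 1) / (1 + z), ?_, ?_⟩
  · have hne : ∀ z : ℂ, z ∈ {z : ℂ | 0 ≤ z.re} → 1 + z ≠ 0 := by
      intro z hz h
      have hz' : 0 ≤ z.re := hz
      have := congrArg Complex.re h
      simp at this
      linarith
    refine ContinuousOn.div (ContinuousOn.sub ?_ continuousOn_const) (by fun_prop) hne
    have h1 := continuousOn_LFunctionResidueClassAux (q := 1) (1 : ZMod 1)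
    refine ContinuousOn.comp (t := {s : ℂ | 1 ≤ s.re}) h1 (f := fun z : ℂ => 1 + z)
      (by fun_prop) ?_
    intro z hz
    have hz' : 0 ≤ z.re := hz
    show 1 ≤ (1 + z).re
    simpa using hz'
  · intro z hz
    have hz0 : z ≠ 0 := by
      rintro rfl
      simp at hz
    have hz1 : 1 + z ≠ 0 := by
      intro h
      have := congrArg Complex.re h
      simp at this
      linarith
    have h1 := eqOn_LFunctionResidueClassAux (q := 1) (a := (1 : ZMod 1)) isUnit_one
      (x := 1 + z) (by show 1 < (1 + z).re; simpa using hz)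
    have h2 : residueClass (1 : ZMod 1) = fun n => ArithmeticFunction.vonMangoldt n := by
      funext n
      unfold residueClass
      apply Set.indicator_of_mem
      exact Subsingleton.elim _ _
    have h3 := lser hz
    simp only [h2, Nat.totient_one, Nat.cast_one, inv_one] at h1
    have h4 : (∫ t in Set.Ioi (0 : ℝ),
        ((Real.exp (-t) * Chebyshev.psi (Real.exp t) - 1 : ℝ) : ℂ) * Complex.exp (-z * t)) =
        (∫ t in Set.Ioi (0 : ℝ), ((Real.exp (-t) * Chebyshev.psi (Real.exp t) : ℝ) : ℂ) *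
          Complex.exp (-z * t)) - ∫ t in Set.Ioi (0 : ℝ), Complex.exp (-z * t) := by
      rw [← integral_sub (int_psi hz) (int_one hz)]
      apply setIntegral_congr_fun measurableSet_Ioi
      intro t _
      simp only
      push_cast
      ring
    rw [h4, lap_one hz]
    simp only
    rw [h1, h3, show (1 : ℂ) + z - 1 = z by ring]
    generalize (∫ t in Set.Ioi (0 : ℝ), ((Real.exp (-t) * Chebyshev.psi (Real.exp t) : ℝ) : ℂ) *
          Complex.exp (-z * t)) = I
    field_simp
    ring

end Pool.Agent.PNT
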