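import Pool.Agent.PNT.Lim2
import Pool.Agent.PNT.Tau
import Pool.Agent.PNT.Zeta

/-!
# PNT/Main: the prime number theorem and primes in short intervals

`S t = exp (-t) psi (exp t)`: measurable (`Chebyshev.psi_mono`), `0 ≤ S ≤ log 4 + 4` (`Chebyshev.psi_le_const_mul_self`),
`S t exp t = psi (exp t)` is monotone; `tauber` with `wi_limit` for `S - 1` and `zeta_int`. `psi x/x = S (log x)`.
`theta`: `Chebyshev.psi_sub_theta_le`. Short intervals: `theta ((1+ε) x) - theta x > 0` for large `x`, and if there is no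
prime in `(x, (1+ε) x]` the two values are equal (`Chebyshev.theta_eq_sum_Icc`).
-/

set_option autoImplicit false

open MeasureTheory Filter Topology

namespace Pool.Agent.PNT

/-- The function to which the Tauberian theorem is applied. -/
noncomputable def SS (t : ℝ) : ℝ := Real.exp (-t) * Chebyshev.psi (Real.exp t)

theorem SS_meas : Measurable SS := by
  have h1 : Measurable (fun t : ℝ => Chebyshev.psi (Real.exp t)) :=
    Chebyshev.psi_mono.measurable.comp Real.measurable_exp
  exact (Real.measurable_exp.comp measurable_neg).mul h1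

theorem SS_nonneg (t : ℝ) : 0 ≤ SS t :=
  mul_nonneg (Real.exp_pos _).le (Chebyshev.psi_nonneg _)

theorem SS_mul_exp (t : ℝ) : SS t * Real.exp t = Chebyshev.psi (Real.exp t) := by
  unfold SS
  rw [mul_right_comm, ← Real.exp_add, neg_add_cancel, Real.exp_zero, one_mul]

theorem SS_le (t : ℝ) : SS t ≤ Real.log 4 + 4 := by
  have h1 := Chebyshev.psi_le_const_mul_self (Real.exp_pos t).le
  rw [← SS_mul_exp] at h1
  exact le_of_mul_le_mul_right h1 (Real.exp_pos t)

theorem SS_tendsto : Tendsto SS atTop (𝓝 1) := by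
  obtain ⟨F, hF, hFS⟩ := zeta_int
  refine tauber SS_meas SS_nonneg SS_le ?_ ?_
  · intro t u _ htu
    rw [SS_mul_exp, SS_mul_exp]
    exact Chebyshev.psi_mono (Real.exp_le_exp.mpr htu)
  · intro l hl
    have hlog : 0 ≤ Real.log 4 := Real.log_nonneg (by norm_num)
    refine wi_limit (S := fun t => SS t - 1) (SS_meas.sub measurable_const)
      (M := Real.log 4 + 4) ?_ hF hFS hl
    intro t
    have h1 := SS_nonneg t
    have h2 := SS_le t
    rw [abs_le]
    constructor <;> linarith

theorem pnt_psi : Tendsto (fun x : ℝ => Chebyshev.psi x / x) atTop (𝓝 1) := by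
  have h1 := SS_tendsto.comp Real.tendsto_log_atTop
  refine h1.congr' ?_
  filter_upwards [eventually_gt_atTop 0] with x hx
  simp only [Function.comp_apply, SS]
  rw [Real.exp_log hx, Real.exp_neg, Real.exp_log hx, div_eq_inv_mul]

theorem pnt_theta : Tendsto (fun x : ℝ => Chebyshev.theta x / x) atTop (𝓝 1) := by
  obtain ⟨C, hC⟩ := Chebyshev.psi_sub_theta_le_mul_sqrt
  have h1 : Tendsto (fun x : ℝ => C * (√x)⁻¹) atTop (𝓝 0) := by
    have h2 := (tendsto_inv_atTop_zero.comp Real.tendsto_sqrt_atTop).const_mul C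
    rwa [mul_zero] at h2
  have h3 : Tendsto (fun x : ℝ => (Chebyshev.psi x - Chebyshev.theta x) / x) atTop (𝓝 0) := by
    refine tendsto_of_tendsto_of_tendsto_of_le_of_le' tendsto_const_nhds h1 ?_ ?_
    · filter_upwards [eventually_gt_atTop 0] with x hx
      exact div_nonneg (sub_nonneg.mpr (Chebyshev.theta_le_psi x)) hx.le
    · filter_upwards [eventually_gt_atTop 0] with x hx
      have hs : 0 < √x := Real.sqrt_pos.mpr hx
      rw [div_le_iff₀ hx]
      refine (hC x).trans (le_of_eq ?_)
      have h4 : √x * √x = x := Real.mul_self_sqrt hx.le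
      calc C * √x = C * ((√x)⁻¹ * (√x * √x)) := by
            rw [← mul_assoc (√x)⁻¹, inv_mul_cancel₀ hs.ne', one_mul]
        _ = C * (√x)⁻¹ * x := by rw [h4, mul_assoc]
  have h5 := pnt_psi.sub h3
  rw [sub_zero] at h5
  refine h5.congr' ?_
  filter_upwards [eventually_gt_atTop 0] with x hx
  rw [← sub_div]
  congr 1
  ring

theorem primes_short {ε : ℝ} (hε : 0 < ε) : ∀ᶠ x : ℝ in atTop, ∃ p : ℕ, p.Prime ∧ x < p ∧
    (p : ℝ) ≤ (1 + ε) * x := by
  have h1 : Tendsto (fun x : ℝ => (1 + ε) * x) atTop atTop :=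
    tendsto_id.const_mul_atTop (by linarith)
  have h2 := (pnt_theta.comp h1).const_mul (1 + ε)
  have h3 := h2.sub pnt_theta
  have h4 : (1 + ε) * 1 - 1 = ε := by ring
  rw [h4] at h3
  filter_upwards [h3.eventually (lt_mem_nhds hε), eventually_gt_atTop 0] with x hx hx0
  have h5 : Chebyshev.theta x < Chebyshev.theta ((1 + ε) * x) := by
    have h6 : (1 + ε) * (Chebyshev.theta ((1 + ε) * x) / ((1 + ε) * x))
        = Chebyshev.theta ((1 + ε) * x) / x := by
      have : (1 + ε) ≠ 0 := by positivity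
      field_simp
    simp only [Function.comp_apply] at hx
    rw [h6, ← sub_div] at hx
    have h7 := (div_pos_iff_of_pos_right hx0).mp hx
    linarith
  by_contra hn
  push Not at hn
  refine absurd h5 (not_lt.mpr ?_)
  rw [Chebyshev.theta_eq_sum_Icc, Chebyshev.theta_eq_sum_Icc]
  refine Finset.sum_le_sum_of_subset_of_nonneg ?_ (fun p _ _ => Real.log_natCast_nonneg p)
  intro p hp
  rw [Finset.mem_filter, Finset.mem_Icc] at hp ⊢
  refine ⟨⟨hp.1.1, ?_⟩, hp.2⟩
  have h8 : (p : ℝ) ≤ (1 + ε) * x := (Nat.le_floor_iff (by positivity)).mp hp.1.2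
  rw [Nat.le_floor_iff hx0.le]
  by_contra hc
  exact absurd h8 (not_le.mpr (hn p hp.2 (not_le.mp hc)))

end Pool.Agent.PNT
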