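import Mathlib

/-!
# The Fejer kernel

`K x = 2 (1 - cos x) / x²` (and `K 0 = 1`) is nonnegative, integrable, and is the Fourier transform
of the triangle function `(1 - |y|)` on `[-1, 1]`.
-/

namespace Pool.Agent.PNT

open MeasureTheory Set Filter Topology intervalIntegral

/-- the Fejer kernel -/
noncomputable def K (x : ℝ) : ℝ := if x = 0 then 1 else 2 * (1 - Real.cos x) / x ^ 2

theorem K_of_ne {x : ℝ} (hx : x ≠ 0) : K x = 2 * (1 - Real.cos x) / x ^ 2 := by
  simp [K, hx]

theorem K_nonneg (x : ℝ) : 0 ≤ K x := by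
  by_cases hx : x = 0
  · simp [K, hx]
  · rw [K_of_ne hx]
    have := Real.cos_le_one x
    positivity [sub_nonneg.2 this]

theorem K_le_one (x : ℝ) : K x ≤ 1 := by
  by_cases hx : x = 0
  · simp [K, hx]
  · rw [K_of_ne hx, div_le_one (by positivity)]
    have := Real.one_sub_sq_div_two_le_cos (x := x)
    linarith

theorem K_le (x : ℝ) : K x ≤ 5 * (1 + x ^ 2)⁻¹ := by
  by_cases hx : x = 0
  · simp [K, hx]
  · have h1 := K_le_one x
    have h2 : K x * x ^ 2 ≤ 4 := by
      rw [K_of_ne hx, div_mul_cancel₀ _ (by positivity)]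
      have := Real.neg_one_le_cos x
      linarith
    rw [← div_eq_mul_inv, le_div_iff₀ (by positivity)]
    linarith

theorem measurable_K : Measurable K := by
  unfold K
  refine Measurable.ite (measurableSet_singleton 0) measurable_const ?_
  exact ((measurable_const.sub Real.measurable_cos).const_mul 2).div (measurable_id.pow_const 2)

theorem integrable_K : Integrable K := by
  refine Integrable.mono' (integrable_inv_one_add_sq.const_mul 5)
    measurable_K.aestronglyMeasurable (ae_of_all _ fun x => ?_)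
  rw [Real.norm_of_nonneg (K_nonneg x)]
  exact K_le x

theorem K_pos {x : ℝ} (h0 : 0 < x) (h1 : x < 1) : 0 < K x := by
  rw [K_of_ne h0.ne']
  have h2 : Real.cos x < 1 := by
    have := Real.cos_lt_cos_of_nonneg_of_le_pi le_rfl (by linarith [Real.pi_gt_three]) h0
    rwa [Real.cos_zero] at this
  have h3 : 0 < 1 - Real.cos x := by linarith
  positivity

theorem integral_K_pos : 0 < ∫ x, K x := by
  rw [integral_pos_iff_support_of_nonneg K_nonneg integrable_K]
  refine lt_of_lt_of_le ?_ (measure_mono (s := Ioo (0 : ℝ) 1) ?_)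
  · simp
  · intro x hx
    exact (K_pos hx.1 hx.2).ne'

theorem K_eq_integral (x : ℝ) :
    (K x : ℂ) = ∫ y in (-1 : ℝ)..1, ((1 - |y| : ℝ) : ℂ) * Complex.exp (Complex.I * x * y) := by
  have hint : ∀ a b : ℝ, IntervalIntegrable
      (fun y : ℝ => ((1 - |y| : ℝ) : ℂ) * Complex.exp (Complex.I * x * y)) volume a b := by
    intro a b
    apply Continuous.intervalIntegrable
    fun_prop
  rw [← integral_add_adjacent_intervals (hint (-1) 0) (hint 0 1)]
  have e1 : (∫ y in (-1 : ℝ)..0, ((1 - |y| : ℝ) : ℂ) * Complex.exp (Complex.I * x * y)) =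
      ∫ y in (-1 : ℝ)..0, (1 + (y : ℂ)) * Complex.exp (Complex.I * x * y) := by
    refine integral_congr fun y hy => ?_
    rw [uIcc_of_le (by norm_num)] at hy
    simp only [abs_of_nonpos hy.2]
    push_cast
    ring
  have e2 : (∫ y in (0 : ℝ)..1, ((1 - |y| : ℝ) : ℂ) * Complex.exp (Complex.I * x * y)) =
      ∫ y in (0 : ℝ)..1, (1 - (y : ℂ)) * Complex.exp (Complex.I * x * y) := by
    refine integral_congr fun y hy => ?_
    rw [uIcc_of_le (by norm_num)] at hy
    simp only [abs_of_nonneg hy.1]
    push_cast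
    ring
  rw [e1, e2]
  by_cases hx : x = 0
  · subst hx
    have f1 : (∫ y in (-1 : ℝ)..0, (1 + (y : ℂ)) * Complex.exp (Complex.I * (0 : ℝ) * y)) =
        1 / 2 := by
      have : ∀ y ∈ uIcc (-1 : ℝ) 0, HasDerivAt (fun y : ℝ => (y : ℂ) + (y : ℂ) ^ 2 / 2)
          ((1 + (y : ℂ)) * Complex.exp (Complex.I * (0 : ℝ) * y)) y := by
        intro y _
        have h := (Complex.ofRealCLM.hasDerivAt (x := y))
        refine (h.add ((h.pow 2).div_const 2)).congr_deriv ?_
        simp
      rw [integral_eq_sub_of_hasDerivAt this (Continuous.intervalIntegrable (by fun_prop) _ _)]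
      norm_num
    have f2 : (∫ y in (0 : ℝ)..1, (1 - (y : ℂ)) * Complex.exp (Complex.I * (0 : ℝ) * y)) =
        1 / 2 := by
      have : ∀ y ∈ uIcc (0 : ℝ) 1, HasDerivAt (fun y : ℝ => (y : ℂ) - (y : ℂ) ^ 2 / 2)
          ((1 - (y : ℂ)) * Complex.exp (Complex.I * (0 : ℝ) * y)) y := by
        intro y _
        have h := (Complex.ofRealCLM.hasDerivAt (x := y))
        refine (h.sub ((h.pow 2).div_const 2)).congr_deriv ?_
        simp
      rw [integral_eq_sub_of_hasDerivAt this (Continuous.intervalIntegrable (by fun_prop) _ _)]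
      norm_num
    rw [f1, f2]
    simp [K]
    norm_num
  · have hxc : Complex.I * (x : ℂ) ≠ 0 := by simp [hx]
    set c : ℂ := Complex.I * (x : ℂ) with hc
    have hexp : ∀ y : ℝ, HasDerivAt (fun y : ℝ => Complex.exp (c * y))
        (c * Complex.exp (c * y)) y := by
      intro y
      have h := (Complex.ofRealCLM.hasDerivAt (x := y))
      have h' := (h.const_mul c).cexp
      simp only [Complex.ofRealCLM_apply, Complex.ofReal_one, mul_one] at h'
      convert h' using 1
      ring
    have f1 : (∫ y in (-1 : ℝ)..0, (1 + (y : ℂ)) * Complex.exp (c * y)) =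
        1 / c - 1 / c ^ 2 + Complex.exp (-c) / c ^ 2 := by
      have : ∀ y ∈ uIcc (-1 : ℝ) 0, HasDerivAt
          (fun y : ℝ => (1 + (y : ℂ)) * Complex.exp (c * y) / c - Complex.exp (c * y) / c ^ 2)
          ((1 + (y : ℂ)) * Complex.exp (c * y)) y := by
        intro y _
        have h := (Complex.ofRealCLM.hasDerivAt (x := y))
        refine ((((h.const_add 1).mul (hexp y)).div_const c).sub
          ((hexp y).div_const (c ^ 2))).congr_deriv ?_
        simp only [Complex.ofRealCLM_apply, Complex.ofReal_one]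
        field_simp
        ring
      rw [integral_eq_sub_of_hasDerivAt this (Continuous.intervalIntegrable (by fun_prop) _ _)]
      push_cast
      simp only [mul_zero, Complex.exp_zero, mul_neg, mul_one]
      ring
    have f2 : (∫ y in (0 : ℝ)..1, (1 - (y : ℂ)) * Complex.exp (c * y)) =
        Complex.exp c / c ^ 2 - 1 / c - 1 / c ^ 2 := by
      have : ∀ y ∈ uIcc (0 : ℝ) 1, HasDerivAt
          (fun y : ℝ => (1 - (y : ℂ)) * Complex.exp (c * y) / c + Complex.exp (c * y) / c ^ 2)
          ((1 - (y : ℂ)) * Complex.exp (c * y)) y := by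
        intro y _
        have h := (Complex.ofRealCLM.hasDerivAt (x := y))
        refine ((((h.const_sub 1).mul (hexp y)).div_const c).add
          ((hexp y).div_const (c ^ 2))).congr_deriv ?_
        simp only [Complex.ofRealCLM_apply, Complex.ofReal_one]
        field_simp
        ring
      rw [integral_eq_sub_of_hasDerivAt this (Continuous.intervalIntegrable (by fun_prop) _ _)]
      push_cast
      simp only [mul_zero, Complex.exp_zero, mul_one]
      ring
    rw [f1, f2, K_of_ne hx]
    have hcos : Complex.exp c + Complex.exp (-c) = 2 * ((Real.cos x : ℝ) : ℂ) := by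
      rw [Complex.ofReal_cos, Complex.cos, hc]
      ring_nf
    have hc2 : c ^ 2 = -((x : ℂ) ^ 2) := by
      rw [hc, mul_pow, Complex.I_sq]
      ring
    have hx2 : (x : ℂ) ≠ 0 := by exact_mod_cast hx
    have : 1 / c - 1 / c ^ 2 + Complex.exp (-c) / c ^ 2 +
        (Complex.exp c / c ^ 2 - 1 / c - 1 / c ^ 2) =
        ((Complex.exp c + Complex.exp (-c)) - 2) / c ^ 2 := by
      ring
    rw [this, hcos, hc2]
    push_cast
    field_simp
    ring

end Pool.Agent.PNT
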