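import Pool.Agent.PNT.Fejer

/-!
# A Tauberian theorem (Ikehara's argument with the Fejer kernel)
-/

namespace Pool.Agent.PNT

open MeasureTheory Set Filter Topology intervalIntegral

/-- the Fubini step, for `ε > 0` -/
theorem fubini_step {B : ℝ → ℝ} (hm : Measurable B) {M : ℝ} (hM : ∀ t, |B t| ≤ M)
    {H : ℂ → ℂ} (hL : ∀ z : ℂ, 0 < z.re → H z = ∫ t in Ioi (0 : ℝ), (B t : ℂ) * Complex.exp (-z * t))
    {l : ℝ} (u : ℝ) {ε : ℝ} (hε : 0 < ε) :
    ((∫ t in Ioi (0 : ℝ), B t * Real.exp (-ε * t) * K (l * (u - t)) : ℝ) : ℂ) =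
      ∫ y in (-1 : ℝ)..1, ((1 - |y| : ℝ) : ℂ) * Complex.exp (Complex.I * (l * u : ℝ) * y) *
        H (ε + Complex.I * (l * y : ℝ)) := by
  have hM0 : 0 ≤ M := (abs_nonneg _).trans (hM 0)
  have hBint : IntegrableOn (fun t => B t * Real.exp (-ε * t)) (Ioi 0) := by
    refine Integrable.mono' ((integrableOn_exp_mul_Ioi (a := -ε) (by linarith) 0).const_mul M)
      (hm.mul (by fun_prop)).aestronglyMeasurable (ae_of_all _ fun t => ?_)
    rw [norm_mul, Real.norm_eq_abs, Real.norm_of_nonneg (Real.exp_pos _).le]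
    exact mul_le_mul_of_nonneg_right (hM t) (Real.exp_pos _).le
  let F : ℝ → ℝ → ℂ := fun t y => ((B t * Real.exp (-ε * t) : ℝ) : ℂ) *
    (((1 - |y| : ℝ) : ℂ) * Complex.exp (Complex.I * (l * (u - t) : ℝ) * y))
  have hFint : Integrable (Function.uncurry F)
      ((volume.restrict (Ioi (0 : ℝ))).prod (volume.restrict (Ioc (-1 : ℝ) 1))) := by
    have hg : Integrable (fun y : ℝ => abs (1 - |y|)) (volume.restrict (Ioc (-1 : ℝ) 1)) := by
      have : Continuous (fun y : ℝ => abs (1 - |y|)) := by fun_prop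
      exact this.integrableOn_Ioc
    refine Integrable.mono' (hBint.norm.mul_prod hg) ?_ (ae_of_all _ fun z => ?_)
    · refine Measurable.aestronglyMeasurable ?_
      have hB' : Measurable fun z : ℝ × ℝ => B z.1 := hm.comp measurable_fst
      have h1 : Measurable fun z : ℝ × ℝ => ((B z.1 * Real.exp (-ε * z.1) : ℝ) : ℂ) :=
        Complex.measurable_ofReal.comp (hB'.mul (by fun_prop))
      have h2 : Measurable fun z : ℝ × ℝ => (((1 - |z.2| : ℝ) : ℂ) *
          Complex.exp (Complex.I * (l * (u - z.1) : ℝ) * z.2)) := by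
        apply Continuous.measurable
        fun_prop
      exact h1.mul h2
    · simp only [Function.uncurry, F]
      rw [norm_mul, norm_mul, Complex.norm_real, Complex.norm_real]
      have : ‖Complex.exp (Complex.I * (l * (u - z.1) : ℝ) * z.2)‖ = 1 := by
        rw [show Complex.I * ((l * (u - z.1) : ℝ) : ℂ) * (z.2 : ℂ) =
          ((l * (u - z.1) * z.2 : ℝ) : ℂ) * Complex.I by push_cast; ring]
        exact Complex.norm_exp_ofReal_mul_I _
      rw [this, mul_one, Real.norm_eq_abs (1 - |z.2|)]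
  have h1 : ((∫ t in Ioi (0 : ℝ), B t * Real.exp (-ε * t) * K (l * (u - t)) : ℝ) : ℂ) =
      ∫ t in Ioi (0 : ℝ), ∫ y in Ioc (-1 : ℝ) 1, F t y := by
    rw [← integral_complex_ofReal]
    refine integral_congr_ae (ae_of_all _ fun t => ?_)
    simp only [F]
    rw [MeasureTheory.integral_const_mul, ← integral_of_le (by norm_num), ← K_eq_integral]
    push_cast
    ring
  rw [h1, integral_integral_swap hFint, integral_of_le (by norm_num)]
  refine integral_congr_ae (ae_of_all _ fun y => ?_)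
  simp only [F]
  rw [hL _ (by simp [hε]), ← MeasureTheory.integral_const_mul]
  refine integral_congr_ae (ae_of_all _ fun t => ?_)
  simp only
  rw [Complex.ofReal_mul, Complex.ofReal_exp]
  have h2 : Complex.exp (((-ε * t : ℝ)) : ℂ) *
      Complex.exp (Complex.I * ((l * (u - t) : ℝ) : ℂ) * (y : ℂ)) =
      Complex.exp (Complex.I * ((l * u : ℝ) : ℂ) * (y : ℂ)) *
        Complex.exp (-((ε : ℂ) + Complex.I * ((l * y : ℝ) : ℂ)) * (t : ℂ)) := by
    rw [← Complex.exp_add, ← Complex.exp_add]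
    congr 1
    push_cast
    ring
  linear_combination ((B t : ℂ) * ((1 - |y| : ℝ) : ℂ)) * h2

/-- the limit `ε → 0` -/
theorem limit_step {B : ℝ → ℝ} (hm : Measurable B) {M : ℝ} (hM : ∀ t, |B t| ≤ M)
    {H : ℂ → ℂ} (hH : ContinuousOn H {z | 0 ≤ z.re})
    (hL : ∀ z : ℂ, 0 < z.re → H z = ∫ t in Ioi (0 : ℝ), (B t : ℂ) * Complex.exp (-z * t))
    {l : ℝ} (hl : 0 < l) (u : ℝ) :
    ((∫ t in Ioi (0 : ℝ), B t * K (l * (u - t)) : ℝ) : ℂ) =
      ∫ y in (-1 : ℝ)..1, ((1 - |y| : ℝ) : ℂ) * Complex.exp (Complex.I * (l * u : ℝ) * y) *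
        H (Complex.I * (l * y : ℝ)) := by
  have hM0 : 0 ≤ M := (abs_nonneg _).trans (hM 0)
  have hKint : Integrable (fun t => K (l * (u - t))) := by
    have h1 : Integrable (fun t => K (l * t)) := integrable_K.comp_mul_left' hl.ne'
    exact h1.comp_sub_left u
  have hKm : Measurable (fun t => K (l * (u - t))) := measurable_K.comp (by fun_prop)
  have hlim1 : Tendsto (fun ε : ℝ => ((∫ t in Ioi (0 : ℝ),
      B t * Real.exp (-ε * t) * K (l * (u - t)) : ℝ) : ℂ)) (𝓝[>] 0)
      (𝓝 ((∫ t in Ioi (0 : ℝ), B t * K (l * (u - t)) : ℝ) : ℂ)) := by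
    refine (Complex.continuous_ofReal.tendsto _).comp ?_
    refine tendsto_integral_filter_of_dominated_convergence (fun t => M * K (l * (u - t))) ?_ ?_
      ((hKint.const_mul M).integrableOn) ?_
    · refine Eventually.of_forall fun ε => ?_
      exact ((hm.mul (by fun_prop)).mul hKm).aestronglyMeasurable
    · filter_upwards [self_mem_nhdsWithin] with ε hε
      filter_upwards [ae_restrict_mem measurableSet_Ioi] with t ht
      rw [norm_mul, norm_mul, Real.norm_eq_abs, Real.norm_of_nonneg (Real.exp_pos _).le,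
        Real.norm_of_nonneg (K_nonneg _)]
      refine mul_le_mul_of_nonneg_right ?_ (K_nonneg _)
      have h2 : Real.exp (-ε * t) ≤ 1 := by
        rw [Real.exp_le_one_iff]
        have : 0 < ε * t := mul_pos hε ht
        linarith
      calc |B t| * Real.exp (-ε * t) ≤ M * 1 :=
            mul_le_mul (hM t) h2 (Real.exp_pos _).le hM0
        _ = M := mul_one M
    · refine ae_of_all _ fun t => ?_
      have : Tendsto (fun ε : ℝ => B t * Real.exp (-ε * t) * K (l * (u - t))) (𝓝 0)
          (𝓝 (B t * Real.exp (-0 * t) * K (l * (u - t)))) := by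
        apply Continuous.tendsto
        fun_prop
      simp only [neg_zero, zero_mul, Real.exp_zero, mul_one] at this
      exact this.mono_left nhdsWithin_le_nhds
  have hcpt : IsCompact (Icc (0 : ℝ) 1 ×ℂ Icc (-l) l) := isCompact_Icc.reProdIm isCompact_Icc
  have hsub : (Icc (0 : ℝ) 1 ×ℂ Icc (-l) l) ⊆ {z : ℂ | 0 ≤ z.re} := by
    intro z hz
    rw [Complex.mem_reProdIm] at hz
    exact hz.1.1
  obtain ⟨C, hC⟩ := hcpt.exists_bound_of_continuousOn (hH.mono hsub)
  have hmem : ∀ ε : ℝ, 0 ≤ ε → ε ≤ 1 → ∀ y : ℝ, -1 ≤ y → y ≤ 1 →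
      ((ε : ℂ) + Complex.I * (l * y : ℝ)) ∈ (Icc (0 : ℝ) 1 ×ℂ Icc (-l) l) := by
    intro ε h0 h1 y hy0 hy1
    rw [Complex.mem_reProdIm]
    simp only [Complex.add_re, Complex.ofReal_re, Complex.mul_re, Complex.I_re, zero_mul,
      Complex.I_im, Complex.ofReal_im, mul_zero, sub_zero, add_zero, Complex.add_im,
      Complex.mul_im, one_mul, zero_add, mem_Icc]
    refine ⟨⟨h0, h1⟩, ?_, ?_⟩ <;> nlinarith
  have hcont : ∀ ε : ℝ, 0 ≤ ε → ContinuousOn (fun y : ℝ => ((1 - |y| : ℝ) : ℂ) *
      Complex.exp (Complex.I * (l * u : ℝ) * y) * H (ε + Complex.I * (l * y : ℝ))) univ := by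
    intro ε hε
    refine ContinuousOn.mul (by fun_prop) ?_
    refine hH.comp (by fun_prop) ?_
    intro y _
    simp [hε]
  have hlim2 : Tendsto (fun ε : ℝ => ∫ y in (-1 : ℝ)..1, ((1 - |y| : ℝ) : ℂ) *
      Complex.exp (Complex.I * (l * u : ℝ) * y) * H (ε + Complex.I * (l * y : ℝ))) (𝓝[>] 0)
      (𝓝 (∫ y in (-1 : ℝ)..1, ((1 - |y| : ℝ) : ℂ) *
      Complex.exp (Complex.I * (l * u : ℝ) * y) * H (Complex.I * (l * y : ℝ)))) := by
    refine intervalIntegral.tendsto_integral_filter_of_dominated_convergence (fun _ => C)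
      ?_ ?_ (by simp) ?_
    · filter_upwards [self_mem_nhdsWithin] with ε hε
      exact ((continuousOn_univ.1 (hcont ε (le_of_lt hε))).aestronglyMeasurable)
    · filter_upwards [Ioo_mem_nhdsGT (show (0 : ℝ) < 1 by norm_num)] with ε hε
      refine ae_of_all _ fun y hy => ?_
      rw [uIoc_of_le (by norm_num)] at hy
      have h1 := hC _ (hmem ε hε.1.le hε.2.le y hy.1.le hy.2)
      have h2 : ‖Complex.exp (Complex.I * (l * u : ℝ) * y)‖ = 1 := by
        rw [show Complex.I * ((l * u : ℝ) : ℂ) * (y : ℂ) =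
          ((l * u * y : ℝ) : ℂ) * Complex.I by push_cast; ring]
        exact Complex.norm_exp_ofReal_mul_I _
      rw [norm_mul, norm_mul, h2, mul_one, Complex.norm_real, Real.norm_eq_abs]
      have h3 : abs (1 - |y|) ≤ 1 := by
        rw [abs_le]
        have h4 : |y| ≤ 1 := abs_le.2 ⟨hy.1.le, hy.2⟩
        have h5 := abs_nonneg y
        constructor <;> linarith
      calc abs (1 - |y|) * ‖H (ε + Complex.I * (l * y : ℝ))‖ ≤ 1 * C :=
            mul_le_mul h3 h1 (norm_nonneg _) zero_le_one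
        _ = C := one_mul C
    · refine ae_of_all _ fun y _ => ?_
      refine Tendsto.const_mul _ ?_
      have hmap : Tendsto (fun ε : ℝ => (ε : ℂ) + Complex.I * (l * y : ℝ)) (𝓝[>] 0)
          (𝓝[{z : ℂ | 0 ≤ z.re}] (Complex.I * (l * y : ℝ))) := by
        refine tendsto_nhdsWithin_iff.2 ⟨?_, ?_⟩
        · have : Tendsto (fun ε : ℝ => (ε : ℂ) + Complex.I * (l * y : ℝ)) (𝓝 0)
              (𝓝 (((0 : ℝ) : ℂ) + Complex.I * (l * y : ℝ))) := by
            apply Continuous.tendsto
            fun_prop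
          simp only [Complex.ofReal_zero, zero_add] at this
          exact this.mono_left nhdsWithin_le_nhds
        · filter_upwards [self_mem_nhdsWithin] with ε hε
          simp only [mem_Ioi] at hε
          simp [hε.le]
      exact ((hH _ (by simp)).tendsto).comp hmap
  refine tendsto_nhds_unique hlim1 (hlim2.congr' ?_)
  filter_upwards [self_mem_nhdsWithin] with ε hε
  exact (fubini_step hm hM hL u hε).symm

/-- the mean of `B` against the Fejer kernel tends to zero (Riemann-Lebesgue) -/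
theorem taub {B : ℝ → ℝ} (hm : Measurable B) {M : ℝ} (hM : ∀ t, |B t| ≤ M)
    {H : ℂ → ℂ} (hH : ContinuousOn H {z | 0 ≤ z.re})
    (hL : ∀ z : ℂ, 0 < z.re → H z = ∫ t in Ioi (0 : ℝ), (B t : ℂ) * Complex.exp (-z * t))
    {l : ℝ} (hl : 0 < l) :
    Tendsto (fun u => ∫ t in Ioi (0 : ℝ), B t * K (l * (u - t))) atTop (𝓝 0) := by
  let f : ℝ → ℂ := (Ioc (-1 : ℝ) 1).indicator fun y => ((1 - |y| : ℝ) : ℂ) *
    H (Complex.I * (l * y : ℝ))
  have h1 := Real.tendsto_integral_exp_smul_cocompact f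
  have h2 : Tendsto (fun u : ℝ => -(l * u / (2 * Real.pi))) atTop (cocompact ℝ) := by
    refine Tendsto.mono_right ?_ (atBot_le_cocompact)
    refine tendsto_neg_atTop_atBot.comp ?_
    exact (tendsto_id.const_mul_atTop hl).atTop_div_const (by positivity)
  have h3 := h1.comp h2
  have h4 : Tendsto (fun u => ((∫ t in Ioi (0 : ℝ), B t * K (l * (u - t)) : ℝ) : ℂ)) atTop
      (𝓝 0) := by
    refine h3.congr fun u => ?_
    rw [limit_step hm hM hH hL hl u, integral_of_le (by norm_num),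
      ← MeasureTheory.integral_indicator measurableSet_Ioc]
    refine integral_congr_ae (ae_of_all _ fun y => ?_)
    simp only [f]
    by_cases hy : y ∈ Ioc (-1 : ℝ) 1
    · rw [indicator_of_mem hy, indicator_of_mem hy, Circle.smul_def, smul_eq_mul,
        Real.fourierChar_apply]
      have : (2 * Real.pi * -(y * -(l * u / (2 * Real.pi))) : ℝ) = l * u * y := by
        field_simp
      rw [this]
      push_cast
      ring_nf
    · rw [indicator_of_notMem hy, indicator_of_notMem hy, smul_zero]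
  have h5 := (Complex.continuous_re.tendsto _).comp h4
  simpa [Function.comp_def] using h5

end Pool.Agent.PNT
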