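import Pool.Agent.PNT.Ker
import Pool.Agent.PNT.Taub

/-!
# PNT/Lim2: the Riemann-Lebesgue step (from helper35's `taub`)
-/

set_option autoImplicit false

open MeasureTheory Filter Topology

namespace Pool.Agent.PNT

theorem wi_limit {S : ℝ → ℝ} (hS : Measurable S) {M : ℝ} (hM : ∀ t, |S t| ≤ M) {F : ℂ → ℂ}
    (hF : ContinuousOn F {z | 0 ≤ z.re})
    (hFS : ∀ z : ℂ, 0 < z.re → F z = ∫ t in Set.Ioi (0 : ℝ), (S t : ℂ) * Complex.exp (-z * t))
    {l : ℝ} (hl : 0 < l) :
    Tendsto (fun x : ℝ => ∫ t in Set.Ioi (0 : ℝ), S t * (l * fk (l * (x - t)))) atTop (𝓝 0) := by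
  have h := (taub hS hM hF hFS hl).const_mul l
  rw [mul_zero] at h
  refine h.congr fun x => ?_
  rw [← integral_const_mul]
  congr 1
  funext t
  show l * (S t * fk (l * (x - t))) = S t * (l * fk (l * (x - t)))
  ring

end Pool.Agent.PNT
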